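import Pool.Agent.H76.NP.Targets

/-!
# Row SUS: suspension preserves fans
-/

set_option autoImplicit false

open Pool.Agent.H76.NP

namespace Pool.Agent.H94.NP

section

variable {V E : Type} [Fintype V] [DecidableEq V] [AddCommGroup E] [Module ℝ E]

omit [Fintype V] in
theorem susp_cx {A : V → V → Bool} {n s : V} (hA : IsCx A) : IsCx (susp A n s) := by
  refine ⟨fun x y => ?_, fun x y h => ?_⟩
  · unfold susp
    by_cases hx : x = n ∨ x = s
    · by_cases hy : y = n ∨ y = s
      · rw [if_pos hx, if_pos hy, if_pos hy, if_pos hx]
        simp only [eq_comm]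
      · rw [if_pos hx, if_neg hy, if_neg hy, if_pos hx]
    · by_cases hy : y = n ∨ y = s
      · rw [if_neg hx, if_pos hy, if_pos hy, if_neg hx]
      · rw [if_neg hx, if_neg hy, if_neg hy, if_neg hx, hA.symm]
  · unfold susp at h ⊢
    by_cases hx : x = n ∨ x = s
    · rw [if_pos hx, if_pos hx]
      exact decide_eq_true rfl
    · rw [if_neg hx] at h
      rw [if_neg hx, if_neg hx]
      by_cases hy : y = n ∨ y = s
      · rwa [if_pos hy] at h
      · rw [if_neg hy] at h
        exact hA.refl x y h

theorem sum_susp {A : V → V → Bool} {p : V → E} {p' : V → E × ℝ} {n s : V} (hns : n ≠ s)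
    (hp : ∀ v, A v v = true → p' v = (p v, 0)) (hpn : p' n = (0, 1)) (hps : p' s = (0, -1))
    (c : V → ℝ) (hc : ∀ v, v ≠ n → v ≠ s → c v ≠ 0 → A v v = true) :
    ∑ v, c v • p' v = (∑ v, (if v = n ∨ v = s then 0 else c v) • p v, c n - c s) := by
  refine Prod.ext ?_ ?_
  · rw [Prod.fst_sum]
    refine Finset.sum_congr rfl fun v _ => ?_
    rw [Prod.smul_fst]
    by_cases h1 : v = n
    · subst h1
      rw [hpn, if_pos (Or.inl rfl), smul_zero, zero_smul]
    · by_cases h2 : v = s
      · subst h2
        rw [hps, if_pos (Or.inr rfl), smul_zero, zero_smul]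
      · rw [if_neg (by tauto)]
        by_cases h3 : c v = 0
        · rw [h3, zero_smul, zero_smul]
        · rw [hp v (hc v h1 h2 h3)]
  · rw [Prod.snd_sum]
    rw [Fintype.sum_eq_add n s hns ?_]
    · rw [Prod.smul_snd, Prod.smul_snd, hpn, hps]
      simp only [smul_eq_mul]
      ring
    · intro v hv
      rw [Prod.smul_snd]
      by_cases h3 : c v = 0
      · rw [h3, zero_smul]
      · rw [hp v (hc v hv.1 hv.2 h3)]
        exact smul_zero _

end

theorem pf_SUS : T_SUS := by
  intro V E _ _ _ _ A p p' n s hA hns hn hs hp hpn hps hF
  refine ⟨?_, susp_cx hA⟩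
  have hvv : ∀ v, v ≠ n → v ≠ s → susp A n s v v = A v v := by
    intro v h1 h2
    have h3 : ¬ (v = n ∨ v = s) := by tauto
    unfold susp
    rw [if_neg h3, if_neg h3]
  rintro ⟨y, t⟩
  obtain ⟨c0, hc0, hu⟩ := hF y
  have hc0n : c0 n = 0 := by
    by_contra h
    have := hc0.2.1 n n h h
    rw [hn] at this
    exact Bool.false_ne_true this
  have hc0s : c0 s = 0 := by
    by_contra h
    have := hc0.2.1 s s h h
    rw [hs] at this
    exact Bool.false_ne_true this
  refine ⟨fun v => if v = n then max t 0 else if v = s then max (-t) 0 else c0 v, ?_, ?_⟩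
  · -- existence
    have en : (fun v => if v = n then max t 0 else if v = s then max (-t) 0 else c0 v) n =
        max t 0 := if_pos rfl
    have es : (fun v => if v = n then max t 0 else if v = s then max (-t) 0 else c0 v) s =
        max (-t) 0 := by
      change (if s = n then max t 0 else if s = s then max (-t) 0 else c0 s) = _
      rw [if_neg hns.symm, if_pos rfl]
    have eo : ∀ v, v ≠ n → v ≠ s →
        (fun v => if v = n then max t 0 else if v = s then max (-t) 0 else c0 v) v = c0 v := by
      intro v h1 h2
      change (if v = n then max t 0 else if v = s then max (-t) 0 else c0 v) = _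
      rw [if_neg h1, if_neg h2]
    generalize (fun v => if v = n then max t 0 else if v = s then max (-t) 0 else c0 v) = c
      at en es eo ⊢
    have hcA : ∀ v, v ≠ n → v ≠ s → c v ≠ 0 → A v v = true := by
      intro v h1 h2 h3
      rw [eo v h1 h2] at h3
      exact hc0.2.1 v v h3 h3
    refine ⟨fun v => ?_, fun u v hcu hcv => ?_, ?_⟩
    · by_cases h1 : v = n
      · rw [h1, en]
        exact le_max_right _ _
      · by_cases h2 : v = s
        · rw [h2, es]
          exact le_max_right _ _
        · rw [eo v h1 h2]
          exact hc0.1 v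
    · have hnot : c n ≠ 0 → c s ≠ 0 → False := by
        intro h1 h2
        rw [en] at h1
        rw [es] at h2
        rcases le_total t 0 with h | h
        · exact h1 (max_eq_right h)
        · exact h2 (max_eq_right (by linarith))
      unfold susp
      by_cases h1 : u = n ∨ u = s
      · rw [if_pos h1]
        by_cases h2 : v = n ∨ v = s
        · rw [if_pos h2]
          refine decide_eq_true ?_
          rcases h1 with rfl | rfl <;> rcases h2 with rfl | rfl
          · rfl
          · exact (hnot hcu hcv).elim
          · exact (hnot hcv hcu).elim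
          · rfl
        · rw [if_neg h2]
          exact hcA v (fun h => h2 (Or.inl h)) (fun h => h2 (Or.inr h)) hcv
      · rw [if_neg h1]
        have h1n : u ≠ n := fun h => h1 (Or.inl h)
        have h1s : u ≠ s := fun h => h1 (Or.inr h)
        by_cases h2 : v = n ∨ v = s
        · rw [if_pos h2]
          exact hcA u h1n h1s hcu
        · rw [if_neg h2]
          have h2n : v ≠ n := fun h => h2 (Or.inl h)
          have h2s : v ≠ s := fun h => h2 (Or.inr h)
          rw [eo u h1n h1s] at hcu
          rw [eo v h2n h2s] at hcv
          exact hc0.2.1 u v hcu hcv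
    · rw [sum_susp hns hp hpn hps c hcA]
      refine Prod.ext ?_ ?_
      · change ∑ v, (if v = n ∨ v = s then 0 else c v) • p v = y
        rw [← hc0.2.2]
        refine Finset.sum_congr rfl fun v _ => ?_
        by_cases h1 : v = n ∨ v = s
        · rw [if_pos h1]
          rcases h1 with rfl | rfl
          · rw [hc0n]
          · rw [hc0s]
        · rw [if_neg h1, eo v (fun h => h1 (Or.inl h)) (fun h => h1 (Or.inr h))]
      · change c n - c s = t
        rw [en, es]
        rcases le_total t 0 with h | h
        · rw [max_eq_right h, max_eq_left (by linarith)]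
          ring
        · rw [max_eq_left h, max_eq_right (by linarith)]
          ring
  · -- uniqueness
    intro c hc
    have hcA : ∀ v, v ≠ n → v ≠ s → c v ≠ 0 → A v v = true := by
      intro v h1 h2 h3
      rw [← hvv v h1 h2]
      exact hc.2.1 v v h3 h3
    have hsum := hc.2.2
    rw [sum_susp hns hp hpn hps c hcA] at hsum
    have h1 : ∑ v, (if v = n ∨ v = s then 0 else c v) • p v = y := congrArg Prod.fst hsum
    have h2 : c n - c s = t := congrArg Prod.snd hsum
    have h3 : Rep A p y (fun v => if v = n ∨ v = s then 0 else c v) := by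
      refine ⟨fun v => ?_, fun u v hu hv => ?_, h1⟩
      · change 0 ≤ (if v = n ∨ v = s then 0 else c v)
        by_cases h : v = n ∨ v = s
        · rw [if_pos h]
        · rw [if_neg h]
          exact hc.1 v
      · change (if u = n ∨ u = s then 0 else c u) ≠ 0 at hu
        change (if v = n ∨ v = s then 0 else c v) ≠ 0 at hv
        have hu1 : ¬ (u = n ∨ u = s) := fun h => hu (if_pos h)
        have hv1 : ¬ (v = n ∨ v = s) := fun h => hv (if_pos h)
        rw [if_neg hu1] at hu
        rw [if_neg hv1] at hv
        have h4 := hc.2.1 u v hu hv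
        unfold susp at h4
        rwa [if_neg hu1, if_neg hv1] at h4
    have h4 := hu _ h3
    have hnot : c n = 0 ∨ c s = 0 := by
      by_contra h
      push Not at h
      have h5 := hc.2.1 n s h.1 h.2
      unfold susp at h5
      rw [if_pos (Or.inl rfl), if_pos (Or.inr rfl)] at h5
      exact hns (of_decide_eq_true h5)
    have hn0 := hc.1 n
    have hs0 := hc.1 s
    funext v
    by_cases e1 : v = n
    · rw [e1, if_pos rfl]
      rcases hnot with h | h
      · rw [h, max_eq_right (by linarith)]
      · rw [max_eq_left (by linarith)]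
        linarith
    · rw [if_neg e1]
      by_cases e2 : v = s
      · rw [e2, if_pos rfl]
        rcases hnot with h | h
        · rw [max_eq_left (by linarith)]
          linarith
        · rw [h, max_eq_right (by linarith)]
      · rw [if_neg e2, ← h4]
        change c v = if v = n ∨ v = s then 0 else c v
        rw [if_neg (by tauto)]

end Pool.Agent.H94.NP
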